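import Mathlib
import Pool.Agent.PnMaynard2.Uniform

/-!
# Primes of the form `p_n + 2P(n)` for almost all `P = Q + aR + b`, uniformly in `Q`

Definitions `Admissible`, `ManyPrimes` are in `Pool/Agent/PnPoly/Poly.lean`.

Fix an integer-valued nonconstant direction `R` with positive leading coefficient. For `H` large
and for EVERY integer-valued `Q` of degree at most `d` with `Q(n) ≥ 0` for `n ≥ n1` and
`|Q(k)| ≤ H (log H)^D` for `k ≤ d`, at least `(1 - ε) H^2` of the pairs `(a, b)` in `[1, H]^2` are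
such that `P = Q + a R + b` satisfies, simultaneously for every `N` with
`(log H)^(1+δ) ≤ N ≤ (log H)^A`: at least `N / (log H)^(1+δ)` of the indices `n ≤ N` have
`p_n + 2 P(n)` prime. The proof uses clusters of consecutive primes with prescribed residues and an
index in a prescribed class (Maynard-Tao, with the Bombieri-Vinogradov theorem), and the
Siegel-Walfisz theorem; all are proved in `Pool/Agent`.
-/

open Pool.Agent.PnPoly

namespace Pool.Agent.Results.MP_3aaefc_nt.AlmostAllUniform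

theorem result (d n1 : ℕ) (R : Polynomial ℚ)
    (hR : ∀ m : ℤ, ∃ k : ℤ, R.eval (m : ℚ) = (k : ℚ)) (hlcR : 0 < R.leadingCoeff)
    (hdeg : 1 ≤ R.natDegree) (A D δ ε : ℝ) (hδ : 0 < δ) (hε : 0 < ε) :
    ∃ H0 : ℕ, ∀ H : ℕ, H0 ≤ H → ∀ Q : Polynomial ℚ,
      (∀ m : ℤ, ∃ k : ℤ, Q.eval (m : ℚ) = (k : ℚ)) → Q.natDegree ≤ d →
      (∀ n : ℕ, n1 ≤ n → 0 ≤ Q.eval (n : ℚ)) →
      (∀ k : ℕ, k ≤ d → |((Q.eval (k : ℚ) : ℚ) : ℝ)| ≤ H * Real.log H ^ D) →
      (1 - ε) * (H : ℝ) ^ 2 ≤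
        (({v : ℕ × ℕ | (1 ≤ v.1 ∧ v.1 ≤ H) ∧ (1 ≤ v.2 ∧ v.2 ≤ H) ∧
          Admissible (Q + (Polynomial.C (v.1 : ℚ) * R + Polynomial.C (v.2 : ℚ))) ∧
          ∀ N : ℕ, Real.log H ^ (1 + δ) ≤ N → (N : ℝ) ≤ Real.log H ^ A →
            ManyPrimes (Q + (Polynomial.C (v.1 : ℚ) * R + Polynomial.C (v.2 : ℚ)))
              N ⌈(N : ℝ) / Real.log H ^ (1 + δ)⌉₊}.ncard : ℕ) : ℝ) :=
  Pool.Agent.PnMaynard2.almost_all_uniform d n1 R hR hlcR hdeg A D hδ hε

end Pool.Agent.Results.MP_3aaefc_nt.AlmostAllUniform
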