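import Pool.Agent.PnLG.ZeroLin
import Pool.Agent.PnLG.AdmQuadFin

/-!
# Almost all constant terms satisfying a simple local condition

For an integer-valued `Q` (leading coefficient `≥ 0`) almost all of the constant terms `b ≤ H` for
which `Q + b` satisfies a simple local condition at the primes `≤ y` give at least `c N / log H`
indices `n ≤ N` with `p_n + 2 (Q(n) + b)` prime. This covers almost all `b` for `P(x) = a (x + b)`
and almost all `b` (`b ≢ m (mod 3)` if `3 ∤ m`) for `P(x) = m x² + b`.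
-/

open Finset

namespace Pool.Agent.Results.MP_3aaefc_nt.ZeroClasses

/-- The number of `1 ≤ n ≤ N` with `p_n + 2 P(n)` prime (with `p_1 = 2`). -/
noncomputable def primeCount (P : Polynomial ℚ) (N : ℕ) : ℕ :=
  {n : ℕ | 1 ≤ n ∧ n ≤ N ∧ ∃ r : ℕ, r.Prime ∧
    (r : ℚ) = ((Nat.nth Nat.Prime (n - 1) : ℕ) : ℚ) + 2 * P.eval (n : ℚ)}.ncard

/-- Either `P` has a zero modulo every prime `p ≤ y`, or for every odd prime `p ≤ y` there is a residue
class `a ≢ 0 (mod p)` such that `a + 2 P(n) ≢ 0 (mod p)` for all integers `n`. -/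
def LocallyGood (P : Polynomial ℚ) (y : ℕ) : Prop :=
  (∀ p : ℕ, p.Prime → p ≤ y → ∃ ν z : ℤ, P.eval (ν : ℚ) = p * z) ∨
  (∀ p : ℕ, p.Prime → p ≤ y → p ≠ 2 → ∃ a : ℤ, ¬ (p : ℤ) ∣ a ∧
    ∀ n z : ℤ, (a : ℚ) + 2 * P.eval (n : ℚ) ≠ p * z)

theorem result :
    (∀ Q : Polynomial ℚ, (∀ m : ℤ, ∃ k : ℤ, Q.eval (m : ℚ) = (k : ℚ)) → 0 ≤ Q.leadingCoeff →
      ∀ (C : ℕ) (ε : ℝ), 0 < ε → ∃ y : ℕ, ∃ c : ℝ, 0 < c ∧ ∃ H0 : ℕ, ∀ H N : ℕ, H0 ≤ H →
      (H : ℝ) ≤ (N : ℝ) ^ (max Q.natDegree 1) * Real.log H ^ C →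
      ((Nat.nth Nat.Prime (N - 1) : ℕ) : ℚ) + 2 * Q.eval (N : ℚ) ≤ H →
      (({b : ℕ | 1 ≤ b ∧ b ≤ H ∧ LocallyGood (Q + Polynomial.C (b : ℚ)) y ∧
        (primeCount (Q + Polynomial.C (b : ℚ)) N : ℝ) < c * (N / Real.log H)}.ncard : ℕ) : ℝ) ≤ ε * H) ∧
    (∀ a : ℕ, 1 ≤ a → ∀ (C : ℕ) (ε : ℝ), 0 < ε → ∃ c : ℝ, 0 < c ∧ ∃ H0 : ℕ, ∀ H N : ℕ, H0 ≤ H →
      (H : ℝ) ≤ (N : ℝ) * Real.log H ^ C → Nat.nth Nat.Prime (N - 1) + 2 * a * N ≤ H →
      (({b : ℕ | 1 ≤ b ∧ b ≤ H ∧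
        (({n : ℕ | 1 ≤ n ∧ n ≤ N ∧ (Nat.nth Nat.Prime (n - 1) + 2 * (a * (n + b))).Prime}.ncard : ℕ) : ℝ) <
          c * (N / Real.log H)}.ncard : ℕ) : ℝ) ≤ ε * H) ∧
    (∀ m : ℕ, 1 ≤ m → ∀ (C : ℕ) (ε : ℝ), 0 < ε → ∃ c : ℝ, 0 < c ∧ ∃ H0 : ℕ, ∀ H N : ℕ, H0 ≤ H →
      (H : ℝ) ≤ (N : ℝ) ^ 2 * Real.log H ^ C → Nat.nth Nat.Prime (N - 1) + 2 * m * N ^ 2 ≤ H →
      (({b : ℕ | 1 ≤ b ∧ b ≤ H ∧ (3 ∣ m ∨ ¬ (3 : ℤ) ∣ (b : ℤ) - m) ∧
        (({n : ℕ | 1 ≤ n ∧ n ≤ N ∧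
          (Nat.nth Nat.Prime (n - 1) + 2 * (m * n ^ 2 + b)).Prime}.ncard : ℕ) : ℝ) <
          c * (N / Real.log H)}.ncard : ℕ) : ℝ) ≤ ε * H) := by
  classical
  refine ⟨?_, ?_, ?_⟩
  · intro Q hQ hlc C ε hε
    obtain ⟨y, c, hc, h⟩ := Pool.Agent.PnLG.adm_classes Q hQ hlc C ε hε
    rw [Filter.eventually_atTop] at h
    obtain ⟨H0, hH0⟩ := h
    refine ⟨y, c, hc, max H0 1, fun H N hH h1 h2 => ?_⟩
    have hH1 : 1 ≤ H := le_trans (le_max_right _ _) hH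
    have hN : 1 ≤ N := by
      rcases Nat.eq_zero_or_pos N with h0 | h0
      · exfalso
        subst h0
        have hne : max Q.natDegree 1 ≠ 0 := by
          have := le_max_right Q.natDegree 1
          omega
        rw [Nat.cast_zero, zero_pow hne, zero_mul] at h1
        have : (1:ℝ) ≤ H := by exact_mod_cast hH1
        linarith
      · exact h0
    have hOK : Pool.Agent.PnLG.OK Q C H N := by
      refine ⟨h1, ?_⟩
      have h3 := Pool.Agent.PnLG.sv_cast Q hQ (N - 1)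
      have h4 : (((N - 1 : ℕ) : ℚ) + 1) = (N : ℚ) := by
        rw [Nat.cast_sub hN]; push_cast; ring
      rw [h4] at h3
      have h5 : ((Pool.Agent.PnLG.sv Q (N - 1) : ℤ) : ℚ) ≤ ((H : ℤ) : ℚ) := by
        rw [h3]
        push_cast
        exact h2
      exact_mod_cast h5
    have h6 := hH0 H (le_trans (le_max_left _ _) hH) N hOK
    refine le_trans ?_ h6
    rw [← Set.ncard_coe_finset]
    exact_mod_cast Set.ncard_le_ncard (fun b hb => by
      obtain ⟨hb1, hb2, hb3, hb4⟩ := hb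
      simp only [Finset.coe_filter, Set.mem_ofPred_eq, Finset.mem_Icc]
      refine ⟨⟨hb1, hb2⟩, ?_, ?_⟩
      · rcases hb3 with hb3 | hb3
        · left
          intro p hp
          unfold Pool.Agent.PnLG.Py at hp
          rw [Finset.mem_filter, Finset.mem_Icc] at hp
          obtain ⟨ν, z, hz⟩ := hb3 p hp.2 hp.1.2
          refine ⟨ν, z, ?_⟩
          obtain ⟨k, hk⟩ := hQ ν
          rw [Polynomial.eval_add, Polynomial.eval_C, hk] at hz
          rw [hk, Int.floor_intCast]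
          exact_mod_cast hz
        · right
          intro p hp hp2
          unfold Pool.Agent.PnLG.Py at hp
          rw [Finset.mem_filter, Finset.mem_Icc] at hp
          obtain ⟨a, ha, hz⟩ := hb3 p hp.2 hp.1.2 hp2
          refine ⟨a, ha, fun n hn => ?_⟩
          obtain ⟨z, hz1⟩ := hn
          apply hz n z
          obtain ⟨k, hk⟩ := hQ n
          rw [Polynomial.eval_add, Polynomial.eval_C, hk]
          rw [hk, Int.floor_intCast] at hz1
          exact_mod_cast hz1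
      · have h7 : Pool.Agent.PnLG.cntP Q N (b : ℤ) = primeCount (Q + Polynomial.C (b : ℚ)) N := by
          unfold primeCount Pool.Agent.PnLG.cntP
          simp only [Int.cast_natCast]
        rw [h7]
        exact hb4) (Finset.finite_toSet _)
  · intro a ha C ε hε
    obtain ⟨c, hc, h⟩ := Pool.Agent.PnLG.zero_linear a ha C ε hε
    rw [Filter.eventually_atTop] at h
    obtain ⟨H0, hH0⟩ := h
    refine ⟨c, hc, H0, fun H N hH h1 h2 => ?_⟩
    have h6 := hH0 H hH N h1 (by exact_mod_cast h2)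
    refine le_trans (le_of_eq ?_) h6
    rw [← Set.ncard_coe_finset]
    congr 2
    ext b
    simp only [Set.mem_ofPred_eq, Finset.coe_filter, Finset.mem_Icc]
    tauto
  · intro m hm C ε hε
    obtain ⟨c, hc, h⟩ := Pool.Agent.PnLG.quad_final m hm C ε hε
    rw [Filter.eventually_atTop] at h
    obtain ⟨H0, hH0⟩ := h
    refine ⟨c, hc, H0, fun H N hH h1 h2 => ?_⟩
    have h6 := hH0 H hH N h1 (by exact_mod_cast h2)
    refine le_trans (le_of_eq ?_) h6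
    rw [← Set.ncard_coe_finset]
    congr 2
    ext b
    simp only [Set.mem_ofPred_eq, Finset.coe_filter, Finset.mem_Icc]
    tauto

end Pool.Agent.Results.MP_3aaefc_nt.ZeroClasses
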